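import Mathlib

/-!
# H75F (MP_57a816_nt), file F1: the Fibonacci numbers modulo a prime `p ≡ 3 (mod 5)` and the rank of apparition
-/

namespace Pool.Agent.Lib.H75F

open Matrix

/-- The rank of apparition: the least `n ≥ 1` with `p ∣ F_n`. -/
noncomputable def rk (p : ℕ) : ℕ := sInf {n : ℕ | 1 ≤ n ∧ p ∣ Nat.fib n}

/-- The Fibonacci matrix. -/
def FM (R : Type*) [CommRing R] : Matrix (Fin 2) (Fin 2) R := !![1, 1; 1, 0]

theorem FM_pow (R : Type*) [CommRing R] (n : ℕ) :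
    FM R ^ (n + 1) = !![(Nat.fib (n + 2) : R), (Nat.fib (n + 1) : R); (Nat.fib (n + 1) : R), (Nat.fib n : R)] := by
  induction n with
  | zero => simp [FM]
  | succ n ih =>
    rw [pow_succ, ih, FM, Matrix.mul_fin_two]
    have h1 : Nat.fib (n + 1 + 2) = Nat.fib (n + 1) + Nat.fib (n + 2) := Nat.fib_add_two
    have h2 : Nat.fib (n + 2) = Nat.fib n + Nat.fib (n + 1) := Nat.fib_add_two
    have h3 : n + 1 + 1 = n + 2 := rfl
    rw [h1, h3, h2]
    push_cast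
    congr! 1 <;> ring_nf

/-- `2 M - 1` -/
def SM (R : Type*) [CommRing R] : Matrix (Fin 2) (Fin 2) R := !![1, 2; 2, -1]

theorem SM_sq (R : Type*) [CommRing R] : SM R * SM R = (5 : R) • (1 : Matrix (Fin 2) (Fin 2) R) := by
  rw [SM, Matrix.mul_fin_two, Matrix.one_fin_two, Matrix.smul_of]
  congr 1
  funext i j
  fin_cases i <;> fin_cases j <;> simp <;> norm_num

theorem SM_pow (R : Type*) [CommRing R] (k : ℕ) : SM R ^ (2 * k + 1) = ((5 : R) ^ k) • SM R := by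
  induction k with
  | zero => simp
  | succ k ih =>
    rw [show 2 * (k + 1) + 1 = (2 * k + 1) + 2 by ring, pow_add, ih, pow_two, SM_sq, pow_succ]
    rw [Matrix.mul_smul, Matrix.mul_one, smul_smul, mul_comm]

theorem one_add_SM (R : Type*) [CommRing R] : 1 + SM R = (2 : R) • FM R := by
  rw [SM, FM, Matrix.one_fin_two, Matrix.smul_of]
  ext i j
  fin_cases i <;> fin_cases j <;> simp <;> norm_num

theorem euler5 {p : ℕ} [Fact p.Prime] (h2 : p ≠ 2) (h5 : p % 5 = 3) : (5 : ZMod p) ^ (p / 2) = -1 := by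
  have : Fact (Nat.Prime 5) := ⟨by norm_num⟩
  have hq := legendreSym.quadratic_reciprocity_one_mod_four (p := 5) (q := p) (by norm_num) h2
  have h3 : legendreSym 5 (p : ℤ) = -1 := by
    have h4 : (p : ℤ) % 5 = 3 := by exact_mod_cast congrArg (Nat.cast : ℕ → ℤ) h5
    rw [legendreSym.mod, show ((5 : ℕ) : ℤ) = 5 from rfl, h4]
    norm_num
  have h6 := legendreSym.eq_pow p 5
  rw [show ((5 : ℕ) : ℤ) = 5 from rfl, h3] at hq
  rw [hq] at h6
  push_cast at h6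
  exact h6.symm

/-- `F_p = -1`, `F_(p+1) = 0` modulo `p`. -/
theorem fib_mod {p : ℕ} (hp : p.Prime) (h2 : p ≠ 2) (h5 : p % 5 = 3) :
    (Nat.fib p : ZMod p) = -1 ∧ (Nat.fib (p + 1) : ZMod p) = 0 := by
  have : Fact p.Prime := ⟨hp⟩
  have hodd : p % 2 = 1 := hp.eq_two_or_odd.resolve_left h2
  have hE := euler5 h2 h5
  have hcomm : Commute (1 : Matrix (Fin 2) (Fin 2) (ZMod p)) (SM (ZMod p)) := Commute.one_left _
  have h7 : ((1 : Matrix (Fin 2) (Fin 2) (ZMod p)) + SM (ZMod p)) ^ p = 1 ^ p + SM (ZMod p) ^ p :=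
    add_pow_char_of_commute (p := p) hcomm
  have h8 : SM (ZMod p) ^ p = (-1 : ZMod p) • SM (ZMod p) := by
    have h := SM_pow (ZMod p) (p / 2)
    rw [hE, show 2 * (p / 2) + 1 = p by omega] at h
    exact h
  rw [one_add_SM, h8, one_pow, smul_pow, ZMod.pow_card] at h7
  have h20 : (2 : ZMod p) ≠ 0 := by
    intro h
    have h21 : p ∣ 2 := (ZMod.natCast_eq_zero_iff 2 p).1 (by exact_mod_cast h)
    have := Nat.le_of_dvd (by norm_num) h21
    have := hp.two_le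
    omega
  have hp1 : p - 1 + 1 = p := Nat.sub_add_cancel hp.one_le
  have h13 := FM_pow (ZMod p) (p - 1)
  have hpp : p - 1 + 2 = p + 1 := by omega
  rw [hp1, hpp] at h13
  rw [h13] at h7
  have e01 := congrArg (fun A : Matrix (Fin 2) (Fin 2) (ZMod p) => A 0 1) h7
  have e00 := congrArg (fun A : Matrix (Fin 2) (Fin 2) (ZMod p) => A 0 0) h7
  simp [SM] at e01 e00
  refine ⟨?_, ?_⟩
  · apply mul_left_cancel₀ h20
    rw [e01]
    ring
  · rcases e00 with h | h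
    · exact absurd h h20
    · exact h

theorem fib_half {p m : ℕ} (hp : p.Prime) (h2 : p ≠ 2) (h5 : p % 5 = 3) (hm : p + 1 = 2 * m) (he : Even m) :
    ¬ p ∣ Nat.fib m := by
  intro hd
  have : Fact p.Prime := ⟨hp⟩
  have h0 : (Nat.fib m : ZMod p) = 0 := (ZMod.natCast_eq_zero_iff _ p).2 hd
  obtain ⟨h1, _⟩ := fib_mod hp h2 h5
  have hm1 : 1 ≤ m := by omega
  obtain ⟨l, rfl⟩ : ∃ l, m = l + 1 := ⟨m - 1, by omega⟩
  have hpl : p = 2 * l + 1 := by omega
  have h3 : (Nat.fib p : ZMod p) = (Nat.fib l : ZMod p) ^ 2 := by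
    have h30 : Nat.fib p = Nat.fib (l + 1) ^ 2 + Nat.fib l ^ 2 :=
      (congrArg Nat.fib hpl).trans (Nat.fib_two_mul_add_one l)
    rw [h30]
    push_cast
    rw [h0]
    ring
  have h4 := FM_pow (ZMod p) l
  have h5' := congrArg Matrix.det h4
  rw [Matrix.det_pow, FM, Matrix.det_fin_two_of, Matrix.det_fin_two_of] at h5'
  have h6 : ((1 : ZMod p) * 0 - 1 * 1) ^ (l + 1) = 1 := by
    rw [show ((1 : ZMod p) * 0 - 1 * 1) = -1 by ring, he.neg_one_pow]
  rw [h6, h0] at h5'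
  have h7 : (Nat.fib (l + 2) : ZMod p) = Nat.fib l := by
    rw [Nat.fib_add_two]
    push_cast
    rw [h0, add_zero]
  rw [h7] at h5'
  have h8 : (1 : ZMod p) = -1 := by
    rw [← h1, h3, h5']
    ring
  have h9 : ((2 : ℕ) : ZMod p) = 0 := by
    push_cast
    linear_combination h8
  have h10 := (ZMod.natCast_eq_zero_iff 2 p).1 h9
  have := Nat.le_of_dvd (by norm_num) h10
  have := hp.two_le
  omega

theorem rk_spec {p N : ℕ} (hN : 1 ≤ N) (h : p ∣ Nat.fib N) : 1 ≤ rk p ∧ p ∣ Nat.fib (rk p) :=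
  Nat.sInf_mem (s := {n : ℕ | 1 ≤ n ∧ p ∣ Nat.fib n}) ⟨N, hN, h⟩

theorem rk_le {p n : ℕ} (hn : 1 ≤ n) (h : p ∣ Nat.fib n) : rk p ≤ n :=
  Nat.sInf_le (s := {n : ℕ | 1 ≤ n ∧ p ∣ Nat.fib n}) ⟨hn, h⟩

theorem dvd_iff_rk {p N : ℕ} (hN : 1 ≤ N) (h : p ∣ Nat.fib N) (n : ℕ) : p ∣ Nat.fib n ↔ rk p ∣ n := by
  obtain ⟨h1, h2⟩ := rk_spec hN h
  constructor
  · intro hn
    have h3 : p ∣ Nat.fib (Nat.gcd (rk p) n) := by
      rw [Nat.fib_gcd]
      exact Nat.dvd_gcd h2 hn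
    have h4 : 1 ≤ Nat.gcd (rk p) n := Nat.gcd_pos_of_pos_left _ h1
    have h5 := rk_le h4 h3
    have h6 : Nat.gcd (rk p) n = rk p :=
      le_antisymm (Nat.le_of_dvd h1 (Nat.gcd_dvd_left _ _)) h5
    rw [← h6]
    exact Nat.gcd_dvd_right _ _
  · intro hn
    exact h2.trans (Nat.fib_dvd _ _ hn)

/-- For a prime `p = 4 k - 1 ≡ 3 (mod 5)`, `k` odd, the rank is `4 d`, `d` a divisor of `k`, `d ≠ 1`. -/
theorem rk_form {p k : ℕ} (hp : p.Prime) (h5 : p % 5 = 3) (hk : p + 1 = 4 * k) (hodd : k % 2 = 1) (hp3 : p ≠ 3) :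
    ∃ d, d ∣ k ∧ d ≠ 1 ∧ rk p = 4 * d := by
  have : Fact p.Prime := ⟨hp⟩
  have h2 : p ≠ 2 := by omega
  obtain ⟨_, h0⟩ := fib_mod hp h2 h5
  have hdv : p ∣ Nat.fib (p + 1) := (ZMod.natCast_eq_zero_iff _ p).1 h0
  have hN : 1 ≤ p + 1 := by omega
  have h1 : rk p ∣ 4 * k := by
    rw [← hk]
    exact (dvd_iff_rk hN hdv _).1 hdv
  have h3 : ¬ rk p ∣ 2 * k := by
    rw [← dvd_iff_rk hN hdv]
    exact fib_half hp h2 h5 (by omega) ⟨k, by ring⟩
  have h4 : 4 ∣ rk p := by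
    by_contra h
    apply h3
    obtain ⟨r, hr⟩ : ∃ r, r = rk p := ⟨_, rfl⟩
    rw [← hr] at h h1 ⊢
    rcases Nat.even_or_odd r with he | ho
    · obtain ⟨s, hs⟩ := he
      have hs2 : r = 2 * s := by omega
      subst hs2
      have hso : s % 2 = 1 := by omega
      have h6 : s ∣ 2 * k := by
        have : 2 * s ∣ 2 * (2 * k) := by rw [show 2 * (2 * k) = 4 * k by ring]; exact h1
        exact Nat.dvd_of_mul_dvd_mul_left (by norm_num) this
      have h7 : Nat.Coprime s 2 := Nat.coprime_two_right.2 (Nat.odd_iff.2 hso)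
      have h8 : s ∣ k := h7.dvd_of_dvd_mul_left h6
      exact Nat.mul_dvd_mul_left 2 h8
    · have h7 : Nat.Coprime r 4 := by
        have : Nat.Coprime r 2 := by
          skip
          exact Nat.coprime_two_right.2 ho
        rw [show 4 = 2 ^ 2 by norm_num]
        exact Nat.Coprime.pow_right 2 this
      exact (h7.dvd_of_dvd_mul_left h1).trans (Nat.dvd_mul_left _ _)
  obtain ⟨d, hd⟩ := h4
  refine ⟨d, ?_, ?_, hd⟩
  · rw [hd] at h1
    exact Nat.dvd_of_mul_dvd_mul_left (by norm_num) h1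
  · rintro rfl
    have h6 := (rk_spec hN hdv).2
    rw [hd] at h6
    have h7 : p ∣ 3 := h6
    have := (Nat.prime_dvd_prime_iff_eq hp (by norm_num)).1 h7
    exact hp3 this

end Pool.Agent.Lib.H75F
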