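import Pool.Agent.Lib.H75F.F1

/-!
# H75F (MP_57a816_nt), file F2: few primes have a small rank of apparition
-/

namespace Pool.Agent.Lib.H75F

open Finset

theorem fib_le_two_pow (n : ℕ) : Nat.fib n ≤ 2 ^ n := by
  induction n using Nat.strong_induction_on with
  | _ n ih =>
    match n with
    | 0 => simp
    | 1 => simp
    | n + 2 =>
      rw [Nat.fib_add_two]
      have h1 := ih n (by omega)
      have h2 := ih (n + 1) (by omega)
      rw [pow_succ] at h2
      rw [pow_add]
      omega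

theorem card_primeFactors_fib_le (m : ℕ) (hm : 1 ≤ m) : (Nat.fib m).primeFactors.card ≤ m := by
  have h0 : Nat.fib m ≠ 0 := (Nat.fib_pos.2 hm).ne'
  have h1 : 2 ^ (Nat.fib m).primeFactors.card ≤ ∏ p ∈ (Nat.fib m).primeFactors, p := by
    rw [← Finset.prod_const]
    exact Finset.prod_le_prod' fun p hp => (Nat.prime_of_mem_primeFactors hp).two_le
  have h2 : ∏ p ∈ (Nat.fib m).primeFactors, p ≤ Nat.fib m :=
    Nat.le_of_dvd (Nat.pos_of_ne_zero h0) (Nat.prod_primeFactors_dvd _)
  exact (Nat.pow_le_pow_iff_right (by norm_num)).1 (h1.trans (h2.trans (fib_le_two_pow m)))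

open Classical in
/-- At most `y^2` of the `n` have `40 n + 3` prime with rank at most `y`. -/
theorem small_rank (x y : ℕ) :
    ((Icc 1 x).filter (fun n : ℕ => (40 * n + 3).Prime ∧ rk (40 * n + 3) ≤ y)).card ≤ y ^ 2 := by
  set T := (Icc 1 y).biUnion fun m => (Nat.fib m).primeFactors with hT
  have h1 : T.card ≤ y ^ 2 := by
    refine card_biUnion_le.trans ?_
    calc ∑ m ∈ Icc 1 y, (Nat.fib m).primeFactors.card ≤ ∑ m ∈ Icc 1 y, y :=
          Finset.sum_le_sum fun m hm => by
            rw [mem_Icc] at hm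
            exact (card_primeFactors_fib_le m hm.1).trans hm.2
      _ = y ^ 2 := by rw [sum_const, Nat.card_Icc, smul_eq_mul]; simp [pow_two]
  refine le_trans ?_ h1
  refine Finset.card_le_card_of_injOn (fun n => 40 * n + 3) ?_ ?_
  · intro n hn
    have hn' := Finset.mem_filter.1 (Finset.mem_coe.1 hn)
    obtain ⟨h2, h3, h4⟩ := hn'
    rw [mem_Icc] at h2
    have hp2 : 40 * n + 3 ≠ 2 := by omega
    have h5 := (fib_mod h3 hp2 (by omega)).2
    have h6 : (40 * n + 3) ∣ Nat.fib (40 * n + 3 + 1) := (ZMod.natCast_eq_zero_iff _ _).1 h5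
    have h7 := rk_spec (by omega) h6
    simp only [hT, Finset.coe_biUnion, Set.mem_iUnion, Finset.mem_coe, mem_Icc]
    refine ⟨rk (40 * n + 3), ⟨h7.1, h4⟩, ?_⟩
    rw [Nat.mem_primeFactors]
    exact ⟨h3, h7.2, (Nat.fib_pos.2 h7.1).ne'⟩
  · intro a _ b _ h
    simp only at h
    omega

end Pool.Agent.Lib.H75F
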