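import Pool.Agent.Lib.Sieve.Fundamental
import Pool.Agent.Lib.H59C.MER0

/-!
# H75F (MP_57a816_nt), file F3: an upper bound sieve for `10 n + 1 = q r`, `q` close to `√x`, `40 n + 3` prime
-/

namespace Pool.Agent.Lib.H75F

open Finset Pool.Agent.Lib.Sieve Pool.Agent.Lib.H59C

/-- The removed classes. -/
def Om4 (q p : ℕ) : Finset (ZMod p) := {0, ((4 * q : ℕ) : ZMod p)⁻¹}

theorem Om4_card_le (q p : ℕ) : (Om4 q p).card ≤ 2 := Finset.card_le_two

theorem Om4_card {q p z : ℕ} (hq : q.Prime) (hzq : z < q) (hp : p ∈ sprimes 6 z) : (Om4 q p).card = 2 := by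
  obtain ⟨hpp, h6, hpz⟩ := mem_sprimes.1 hp
  have : Fact p.Prime := ⟨hpp⟩
  unfold Om4
  rw [Finset.card_pair]
  intro h
  have h1 : ((4 * q : ℕ) : ZMod p) = 0 := by
    have := h.symm
    rwa [inv_eq_zero] at this
  rw [ZMod.natCast_eq_zero_iff] at h1
  rcases (Nat.Prime.dvd_mul hpp).1 h1 with h2 | h2
  · have := Nat.le_of_dvd (by norm_num) h2
    omega
  · have := (Nat.prime_dvd_prime_iff_eq hpp hq).1 h2
    omega

open Classical in
/-- The values `r`. -/
noncomputable def Bq (q M z : ℕ) : Finset ℕ :=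
  (range (M + 1)).filter (fun r => r.Prime ∧ z < r ∧ (4 * q * r - 1).Prime ∧ z < 4 * q * r - 1)

theorem s1 {q M z : ℕ} (hz : 7 ≤ z) (hq : q.Prime) (hzq : z < q) (hM : z ^ 422 ≤ M + 1) :
    ((Bq q M z).card : ℝ) ≤ 3 * ((M : ℝ) + 1) * ∏ p ∈ sprimes 6 z, (1 - 2 / (p : ℝ)) := by
  have h := (fundamental_sum (k := 2) (z := z) (Ω := Om4 q) (by omega)
    (fun p _ _ _ => Om4_card_le q p) 0 (M + 1) (by simpa using hM)).2
  have h1 : ∏ p ∈ sprimes (2 * 2 + 2) z, (1 - Sieve.dens (Om4 q) p) = ∏ p ∈ sprimes 6 z, (1 - 2 / (p : ℝ)) := by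
    refine Finset.prod_congr rfl fun p hp => ?_
    unfold Sieve.dens
    rw [Om4_card hq hzq hp]
    norm_num
  rw [h1] at h
  have h2 : ((Bq q M z).card : ℝ) ≤
      ∑ u ∈ Finset.Ico (0 : ℤ) (0 + ((M + 1 : ℕ) : ℤ)), ∏ p ∈ sprimes (2 * 2 + 2) z, (1 - chi (Om4 q) p u) := by
    have hinj : Set.InjOn (fun n : ℕ => (n : ℤ)) (Bq q M z : Set ℕ) := fun a _ b _ hab => by
      have hab' : (a : ℤ) = (b : ℤ) := hab
      exact_mod_cast hab'
    have h3 : ((Bq q M z).card : ℝ) = ∑ u ∈ (Bq q M z).image (fun n : ℕ => (n : ℤ)), (1 : ℝ) := by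
      rw [Finset.sum_const, Finset.card_image_of_injOn hinj]
      simp
    rw [h3]
    calc ∑ u ∈ (Bq q M z).image (fun n : ℕ => (n : ℤ)), (1 : ℝ)
        ≤ ∑ u ∈ (Bq q M z).image (fun n : ℕ => (n : ℤ)),
            ∏ p ∈ sprimes (2 * 2 + 2) z, (1 - chi (Om4 q) p u) := by
          refine Finset.sum_le_sum fun u hu => ?_
          obtain ⟨r, hr, rfl⟩ := Finset.mem_image.1 hu
          obtain ⟨-, hrp, hzr, hpp, hzp⟩ := Finset.mem_filter.1 hr
          refine le_of_eq ?_
          symm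
          refine Finset.prod_eq_one fun p hp => ?_
          obtain ⟨hpr, h6, hpz⟩ := mem_sprimes.1 hp
          have : Fact p.Prime := ⟨hpr⟩
          have hnot : ((r : ℤ) : ZMod p) ∉ Om4 q p := by
            unfold Om4
            rw [Finset.mem_insert, Finset.mem_singleton, Int.cast_natCast]
            rintro (h4 | h4)
            · rw [ZMod.natCast_eq_zero_iff] at h4
              have := (Nat.prime_dvd_prime_iff_eq hpr hrp).1 h4
              omega
            · have h5 : ((4 * q : ℕ) : ZMod p) ≠ 0 := by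
                intro h5
                rw [ZMod.natCast_eq_zero_iff] at h5
                rcases (Nat.Prime.dvd_mul hpr).1 h5 with h7 | h7
                · have := Nat.le_of_dvd (by norm_num) h7
                  omega
                · have := (Nat.prime_dvd_prime_iff_eq hpr hq).1 h7
                  omega
              have h7 : ((4 * q * r : ℕ) : ZMod p) = 1 := by
                rw [Nat.cast_mul, h4, mul_inv_cancel₀ h5]
              have h8 : ((4 * q * r - 1 : ℕ) : ZMod p) = 0 := by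
                have h9 : 1 ≤ 4 * q * r :=
                  Nat.one_le_iff_ne_zero.2 (Nat.mul_ne_zero (Nat.mul_ne_zero (by norm_num) hq.ne_zero) hrp.ne_zero)
                rw [Nat.cast_sub h9, h7]
                simp
              rw [ZMod.natCast_eq_zero_iff] at h8
              have := (Nat.prime_dvd_prime_iff_eq hpr hpp).1 h8
              omega
          unfold chi
          rw [if_neg hnot, sub_zero]
      _ ≤ _ := by
          refine Finset.sum_le_sum_of_subset_of_nonneg ?_ ?_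
          · intro u hu
            obtain ⟨r, hr, rfl⟩ := Finset.mem_image.1 hu
            have h4 := (Finset.mem_filter.1 hr).1
            rw [Finset.mem_range] at h4
            rw [Finset.mem_Ico]
            constructor
            · positivity
            · rw [zero_add]
              exact_mod_cast h4
          · intro u _ _
            refine Finset.prod_nonneg fun p _ => ?_
            unfold chi
            split_ifs <;> norm_num
  refine h2.trans (h.trans (le_of_eq ?_))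
  push_cast
  ring

theorem s2 : ∃ C : ℝ, 0 < C ∧ ∀ z : ℕ, 8 ≤ z →
    ∏ p ∈ sprimes 6 z, (1 - 2 / (p : ℝ)) ≤ C / Real.log z ^ 2 := by
  obtain ⟨C, hC, hm⟩ := mertens
  refine ⟨Real.exp (2 * (Real.log (Real.log 7) + C / Real.log 7)), Real.exp_pos _, fun z hz => ?_⟩
  have hz7 : (7 : ℝ) ≤ z := by exact_mod_cast (by omega : 7 ≤ z)
  have hlz : 0 < Real.log z := Real.log_pos (by linarith)
  have h1 := (abs_le.1 (hm 7 z (by norm_num) hz7)).1
  have h2 : ∑ q ∈ PR 7 z, 1 / (q : ℝ) ≤ ∑ p ∈ sprimes 6 z, 1 / (p : ℝ) := by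
    refine Finset.sum_le_sum_of_subset_of_nonneg ?_ fun p _ _ => by positivity
    intro p hp
    obtain ⟨hp1, hp2, hp3⟩ := mem_PR.1 hp
    rw [mem_sprimes]
    refine ⟨hp1, ?_, ?_⟩
    · have : (7 : ℝ) ≤ p := hp2
      have : 7 ≤ p := by exact_mod_cast this
      omega
    · exact_mod_cast hp3.le
  have h3 : ∏ p ∈ sprimes 6 z, (1 - 2 / (p : ℝ)) ≤ Real.exp (-(2 * ∑ p ∈ sprimes 6 z, 1 / (p : ℝ))) := by
    rw [Finset.mul_sum, ← Finset.sum_neg_distrib, Real.exp_sum]
    refine Finset.prod_le_prod ?_ ?_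
    · intro p hp
      obtain ⟨hp1, hp2, hp3⟩ := mem_sprimes.1 hp
      have : (6 : ℝ) < p := by exact_mod_cast hp2
      have h4 : 2 / (p : ℝ) ≤ 1 := by
        rw [div_le_one (by linarith)]
        linarith
      linarith
    · intro p _
      have := Real.add_one_le_exp (-(2 * (1 / (p : ℝ))))
      have e : 2 / (p : ℝ) = 2 * (1 / (p : ℝ)) := by ring
      rw [e]
      linarith
  refine h3.trans ?_
  have h4 : Real.exp (-(2 * ∑ p ∈ sprimes 6 z, 1 / (p : ℝ))) ≤
      Real.exp (2 * (Real.log (Real.log 7) + C / Real.log 7) - 2 * Real.log (Real.log z)) := by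
    apply Real.exp_le_exp.2
    linarith
  refine h4.trans (le_of_eq ?_)
  rw [Real.exp_sub]
  congr 1
  rw [two_mul, Real.exp_add, Real.exp_log hlz, pow_two]

open Classical in
/-- The values `r ≤ 11 x / q`. -/
noncomputable def Cq (x q : ℕ) : Finset ℕ :=
  (range (11 * x / q + 1)).filter (fun r => r.Prime ∧ q ≤ r ∧ (4 * q * r - 1).Prime)

theorem ev_log (K : ℝ) : ∀ᶠ x : ℕ in Filter.atTop, K ≤ Real.log x :=
  (Real.tendsto_log_atTop.comp tendsto_natCast_atTop_atTop).eventually_ge_atTop K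

theorem s3 : ∃ C : ℝ, 0 < C ∧ ∃ x0 : ℕ, ∀ x : ℕ, x0 ≤ x → ∀ q : ℕ, q.Prime → (x : ℝ) ^ (1 / 4 : ℝ) ≤ q →
    (q : ℝ) ≤ 4 * Real.sqrt x → ((Cq x q).card : ℝ) ≤ C * ((x / q) / Real.log x ^ 2) := by
  obtain ⟨C, hC, h2⟩ := s2
  obtain ⟨x0, hx0⟩ := Filter.eventually_atTop.1 (ev_log (2000 * 10))
  refine ⟨36 * C * 2000 ^ 2, by positivity, max x0 2, fun x hx q hq hq1 hq2 => ?_⟩
  have hL := hx0 x (le_trans (le_max_left _ _) hx)
  have hx2 : 2 ≤ x := le_trans (le_max_right _ _) hx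
  have hxr : (2 : ℝ) ≤ x := by exact_mod_cast hx2
  have hxpos : (0 : ℝ) < x := by linarith
  have hqpos : (0 : ℝ) < q := by exact_mod_cast hq.pos
  have hx1 : (1 : ℝ) ≤ x := by linarith
  obtain ⟨z, hz⟩ : ∃ z : ℕ, z = ⌊(x : ℝ) ^ (1 / 1000 : ℝ)⌋₊ := ⟨_, rfl⟩
  have hlt : Real.log ((x : ℝ) ^ (1 / 1000 : ℝ)) = Real.log x / 1000 := by
    rw [Real.log_rpow hxpos]; ring
  have ht : Real.exp 20 ≤ (x : ℝ) ^ (1 / 1000 : ℝ) := by
    rw [← Real.le_log_iff_exp_le (by positivity), hlt]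
    linarith
  have he20 : (21 : ℝ) ≤ Real.exp 20 := by
    have := Real.add_one_le_exp (20 : ℝ)
    linarith
  have hzle : (z : ℝ) ≤ (x : ℝ) ^ (1 / 1000 : ℝ) := by
    rw [hz]; exact Nat.floor_le (by positivity)
  have hzge : (x : ℝ) ^ (1 / 1000 : ℝ) / 2 ≤ z := by
    have := Nat.lt_floor_add_one ((x : ℝ) ^ (1 / 1000 : ℝ))
    rw [← hz] at this
    linarith
  have hz8 : 8 ≤ z := by
    have : (8 : ℝ) ≤ z := by linarith
    exact_mod_cast this
  have hlz : Real.log x / 2000 ≤ Real.log z := by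
    have h3 : Real.log ((x : ℝ) ^ (1 / 1000 : ℝ) / 2) ≤ Real.log z := Real.log_le_log (by positivity) hzge
    rw [Real.log_div (by positivity) (by norm_num), hlt] at h3
    have := Real.log_two_lt_d9
    linarith
  have hzq : z < q := by
    have h3 : (x : ℝ) ^ (1 / 1000 : ℝ) < (x : ℝ) ^ (1 / 4 : ℝ) :=
      Real.rpow_lt_rpow_of_exponent_lt (by linarith) (by norm_num)
    have : (z : ℝ) < q := by linarith
    exact_mod_cast this
  have hsq : Real.sqrt x * Real.sqrt x = x := Real.mul_self_sqrt hxpos.le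
  have hsq0 : 0 < Real.sqrt x := Real.sqrt_pos.2 hxpos
  have hxq : Real.sqrt x / 4 ≤ x / q := by
    rw [div_le_div_iff₀ (by norm_num) hqpos]
    nlinarith
  obtain ⟨M, hM⟩ : ∃ M : ℕ, M = 11 * x / q := ⟨_, rfl⟩
  have hM1 : (11 : ℝ) * (x / q) ≤ M + 1 := by
    have h3 : 11 * x < (M + 1) * q := by
      rw [hM]
      have := Nat.lt_div_mul_add (a := 11 * x) hq.pos
      nlinarith
    have h4 : (11 : ℝ) * x < (M + 1) * q := by exact_mod_cast h3
    rw [← mul_div_assoc, div_le_iff₀ hqpos]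
    exact h4.le
  have hM2 : (M : ℝ) ≤ 11 * (x / q) := by
    have h3 : M * q ≤ 11 * x := by rw [hM]; exact Nat.div_mul_le_self _ _
    have h4 : (M : ℝ) * q ≤ 11 * x := by exact_mod_cast h3
    rw [← mul_div_assoc, le_div_iff₀ hqpos]
    exact h4
  have hsx : Real.sqrt x = (x : ℝ) ^ (1 / 2 : ℝ) := Real.sqrt_eq_rpow _
  have hs1 : (21 : ℝ) ≤ Real.sqrt x := by
    rw [hsx]
    refine (he20.trans ht).trans (Real.rpow_le_rpow_of_exponent_le hx1 (by norm_num))
  have hzM : z ^ 422 ≤ M + 1 := by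
    have h3 : (z : ℝ) ^ 422 ≤ Real.sqrt x := by
      calc (z : ℝ) ^ 422 ≤ ((x : ℝ) ^ (1 / 1000 : ℝ)) ^ 422 := by gcongr
        _ = (x : ℝ) ^ (422 / 1000 : ℝ) := by
            rw [← Real.rpow_natCast, ← Real.rpow_mul hxpos.le]
            norm_num
        _ ≤ (x : ℝ) ^ (1 / 2 : ℝ) := Real.rpow_le_rpow_of_exponent_le hx1 (by norm_num)
        _ = Real.sqrt x := hsx.symm
    have h4 : (z : ℝ) ^ 422 ≤ M + 1 := by linarith
    exact_mod_cast h4
  have hsub : Cq x q ⊆ Bq q M z := by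
    intro r hr
    obtain ⟨h3, h4, h5, h6⟩ := Finset.mem_filter.1 hr
    refine Finset.mem_filter.2 ⟨by rw [hM]; exact h3, h4, by omega, h6, ?_⟩
    have h7 : 4 * q * 1 ≤ 4 * q * r := Nat.mul_le_mul_left _ h4.one_le
    omega
  have h5 := s1 (by omega) hq hzq hzM
  have h6 := h2 z hz8
  have hlx : 0 < Real.log x := by linarith
  have h7 : C / Real.log z ^ 2 ≤ C * 2000 ^ 2 / Real.log x ^ 2 := by
    have h8 : (Real.log x / 2000) ^ 2 ≤ Real.log z ^ 2 := by
      gcongr
    calc C / Real.log z ^ 2 ≤ C / (Real.log x / 2000) ^ 2 := by gcongr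
      _ = C * 2000 ^ 2 / Real.log x ^ 2 := by field_simp
  have h8 : (M : ℝ) + 1 ≤ 12 * (x / q) := by linarith
  calc ((Cq x q).card : ℝ) ≤ (Bq q M z).card := by exact_mod_cast Finset.card_le_card hsub
    _ ≤ 3 * ((M : ℝ) + 1) * ∏ p ∈ sprimes 6 z, (1 - 2 / (p : ℝ)) := h5
    _ ≤ 3 * ((M : ℝ) + 1) * (C * 2000 ^ 2 / Real.log x ^ 2) := by
        gcongr
        exact h6.trans h7
    _ ≤ 3 * (12 * (x / q)) * (C * 2000 ^ 2 / Real.log x ^ 2) := by gcongr
    _ = 36 * C * 2000 ^ 2 * ((x / q) / Real.log x ^ 2) := by ring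

open Classical in
/-- The bad `n`: `10 n + 1 = q r` with primes `x^(1/2 - e) < q ≤ r`. -/
noncomputable def Bad (x : ℕ) (e : ℝ) : Finset ℕ :=
  (Icc 1 x).filter (fun n : ℕ => (40 * n + 3).Prime ∧ ∃ q r : ℕ, q.Prime ∧ r.Prime ∧
    10 * n + 1 = q * r ∧ q ≤ r ∧ (x : ℝ) ^ (1 / 2 - e) < q)

theorem s4 : ∃ C : ℝ, 0 < C ∧ ∀ e : ℝ, 0 < e → e ≤ 1 / 8 → ∃ x0 : ℕ, ∀ x : ℕ, x0 ≤ x →
    ((Bad x e).card : ℝ) ≤ C * e * (x / Real.log x ^ 2) := by
  classical
  obtain ⟨C, hC, x1, h3⟩ := s3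
  obtain ⟨K, hK, hm⟩ := mertens
  refine ⟨8 * C, by positivity, fun e he0 he1 => ?_⟩
  obtain ⟨x2, hx2⟩ := Filter.eventually_atTop.1 (ev_log (max 16 ((8 * K + 8) / e)))
  refine ⟨max x1 (max x2 2), fun x hx => ?_⟩
  have hxx1 : x1 ≤ x := le_trans (le_max_left _ _) hx
  have hxx2 : x2 ≤ x := le_trans (le_trans (le_max_left _ _) (le_max_right _ _)) hx
  have hxx3 : 2 ≤ x := le_trans (le_trans (le_max_right _ _) (le_max_right _ _)) hx
  have hL := hx2 x hxx2
  have hL16 : 16 ≤ Real.log x := le_trans (le_max_left _ _) hL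
  have hLe : (8 * K + 8) / e ≤ Real.log x := le_trans (le_max_right _ _) hL
  have hxr : (2 : ℝ) ≤ x := by exact_mod_cast hxx3
  have hxpos : (0 : ℝ) < x := by linarith
  have hx1 : (1 : ℝ) ≤ x := by linarith
  have hlx : 0 < Real.log x := by linarith
  obtain ⟨u, hu⟩ : ∃ u : ℝ, u = (x : ℝ) ^ (1 / 2 - e) := ⟨_, rfl⟩
  obtain ⟨v, hv⟩ : ∃ v : ℝ, v = 5 * Real.sqrt x := ⟨_, rfl⟩
  have hsx : Real.sqrt x = (x : ℝ) ^ (1 / 2 : ℝ) := Real.sqrt_eq_rpow _
  have hlu : Real.log u = (1 / 2 - e) * Real.log x := by rw [hu, Real.log_rpow hxpos]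
  have hlv : Real.log v = Real.log 5 + 1 / 2 * Real.log x := by
    rw [hv, Real.log_mul (by norm_num) (by positivity), hsx, Real.log_rpow hxpos]
  have hupos : 0 < u := by rw [hu]; positivity
  have hvpos : 0 < v := by rw [hv]; positivity
  have hu2 : 2 ≤ u := by
    have h4 : Real.log 2 ≤ Real.log u := by
      rw [hlu]
      have := Real.log_two_lt_d9
      nlinarith
    exact (Real.log_le_log_iff (by norm_num) hupos).1 h4
  have hl5 : 0 < Real.log 5 := Real.log_pos (by norm_num)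
  have hl5' : Real.log 5 ≤ 3 := by
    have h4 : Real.log 5 ≤ Real.log 8 := Real.log_le_log (by norm_num) (by norm_num)
    have h5 : Real.log 8 = 3 * Real.log 2 := by
      rw [show (8 : ℝ) = 2 ^ 3 by norm_num, Real.log_pow]; norm_num
    have := Real.log_two_lt_d9
    linarith
  have huv : u ≤ v := by
    rw [← Real.log_le_log_iff hupos hvpos, hlu, hlv]
    nlinarith
  -- the sum over q
  have hsum : ∑ q ∈ PR u v, 1 / (q : ℝ) ≤ 8 * e := by
    have h4 := (abs_le.1 (hm u v hu2 huv)).2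
    have hlu0 : 0 < Real.log u := by rw [hlu]; nlinarith
    have hlu8 : Real.log x / 4 ≤ Real.log u := by rw [hlu]; nlinarith
    have hlv0 : 0 < Real.log v := by rw [hlv]; linarith
    have h5 : Real.log (Real.log v) - Real.log (Real.log u) ≤ Real.log v / Real.log u - 1 := by
      rw [← Real.log_div hlv0.ne' hlu0.ne']
      exact Real.log_le_sub_one_of_pos (by positivity)
    have h6 : Real.log v / Real.log u - 1 ≤ (Real.log 5 + e * Real.log x) / (Real.log x / 4) := by
      have e1 : Real.log v / Real.log u - 1 = (Real.log 5 + e * Real.log x) / Real.log u := by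
        rw [div_sub_one hlu0.ne', hlv, hlu]
        ring_nf
      rw [e1]
      gcongr
    have h7 : K / Real.log u ≤ K / (Real.log x / 4) := by gcongr
    have h8 : (8 * K + 8) ≤ e * Real.log x := by
      rw [div_le_iff₀ he0] at hLe
      linarith
    have h9 : (Real.log 5 + e * Real.log x) / (Real.log x / 4) + K / (Real.log x / 4) ≤ 8 * e := by
      rw [← add_div, div_le_iff₀ (by positivity)]
      nlinarith
    linarith
  -- the cover
  have hcov : Bad x e ⊆ (PR u v).biUnion fun q => ((Icc 1 x).filter fun n : ℕ =>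
      ∃ r ∈ Cq x q, 10 * n + 1 = q * r) := by
    intro n hn
    unfold Bad at hn
    obtain ⟨hn1, hn2, q, r, hq, hr, hqr, hle, hlt⟩ := Finset.mem_filter.1 hn
    have hn3 := Finset.mem_Icc.1 hn1
    rw [Finset.mem_biUnion]
    have hqq : q * q ≤ 11 * x := by
      have : q * q ≤ q * r := Nat.mul_le_mul_left _ hle
      omega
    refine ⟨q, ?_, ?_⟩
    · rw [mem_PR]
      refine ⟨hq, by rw [hu]; exact hlt.le, ?_⟩
      rw [hv]
      have h4 : (q : ℝ) * q ≤ 11 * x := by exact_mod_cast hqq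
      have hsq : Real.sqrt x * Real.sqrt x = x := Real.mul_self_sqrt hxpos.le
      have hsq0 : 0 < Real.sqrt x := Real.sqrt_pos.2 hxpos
      by_contra h5
      push Not at h5
      have h6 : (5 * Real.sqrt x) * (5 * Real.sqrt x) ≤ (q : ℝ) * q := by gcongr
      nlinarith
    · refine Finset.mem_filter.2 ⟨hn1, r, ?_, hqr⟩
      refine Finset.mem_filter.2 ⟨?_, hr, hle, ?_⟩
      · rw [Finset.mem_range, Nat.lt_succ_iff, Nat.le_div_iff_mul_le hq.pos]
        have : r * q = q * r := mul_comm _ _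
        omega
      · have h4 : 4 * q * r - 1 = 40 * n + 3 := by
          have : 4 * q * r = 4 * (q * r) := by ring
          omega
        rw [h4]
        exact hn2
  have hone : ∀ q ∈ PR u v, ((((Icc 1 x).filter fun n : ℕ => ∃ r ∈ Cq x q, 10 * n + 1 = q * r).card : ℕ) : ℝ) ≤
      C * (x / Real.log x ^ 2) * (1 / (q : ℝ)) := by
    intro q hq
    obtain ⟨hq1, hq2, hq3⟩ := mem_PR.1 hq
    have hqpos : (0 : ℝ) < q := by exact_mod_cast hq1.pos
    by_cases h4 : (q : ℝ) ≤ 4 * Real.sqrt x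
    · have h5 : (x : ℝ) ^ (1 / 4 : ℝ) ≤ q := by
        refine le_trans ?_ hq2
        rw [hu]
        exact Real.rpow_le_rpow_of_exponent_le hx1 (by linarith)
      have h6 := h3 x hxx1 q hq1 h5 h4
      have h7 : ((Icc 1 x).filter fun n : ℕ => ∃ r ∈ Cq x q, 10 * n + 1 = q * r).card ≤ (Cq x q).card := by
        refine Finset.card_le_card_of_injOn (fun n => (10 * n + 1) / q) ?_ ?_
        · intro n hn
          obtain ⟨_, r, hr, hqr⟩ := Finset.mem_filter.1 (Finset.mem_coe.1 hn)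
          have : (10 * n + 1) / q = r := by
            rw [hqr]
            exact Nat.mul_div_cancel_left _ hq1.pos
          show (10 * n + 1) / q ∈ (Cq x q : Set ℕ)
          rw [this]
          exact hr
        · intro a ha b hb hab
          obtain ⟨_, r, hr, hqr⟩ := Finset.mem_filter.1 (Finset.mem_coe.1 ha)
          obtain ⟨_, s, hs, hqs⟩ := Finset.mem_filter.1 (Finset.mem_coe.1 hb)
          have h8 : (10 * a + 1) / q = r := by
            rw [hqr]
            exact Nat.mul_div_cancel_left _ hq1.pos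
          have h9 : (10 * b + 1) / q = s := by
            rw [hqs]
            exact Nat.mul_div_cancel_left _ hq1.pos
          simp only at hab
          rw [h8, h9] at hab
          rw [hab] at hqr
          omega
      calc ((((Icc 1 x).filter fun n : ℕ => ∃ r ∈ Cq x q, 10 * n + 1 = q * r).card : ℕ) : ℝ)
          ≤ (Cq x q).card := by exact_mod_cast h7
        _ ≤ C * ((x / q) / Real.log x ^ 2) := h6
        _ = C * (x / Real.log x ^ 2) * (1 / (q : ℝ)) := by ring
    · -- too large q: no n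
      have h5 : ((Icc 1 x).filter fun n : ℕ => ∃ r ∈ Cq x q, 10 * n + 1 = q * r) = ∅ := by
        rw [Finset.filter_eq_empty_iff]
        rintro n hn ⟨r, hr, hqr⟩
        obtain ⟨_, _, hle, _⟩ := Finset.mem_filter.1 hr
        have hn3 := Finset.mem_Icc.1 hn
        have hqq : q * q ≤ 11 * x := by
          have : q * q ≤ q * r := Nat.mul_le_mul_left _ hle
          omega
        have h6 : (q : ℝ) * q ≤ 11 * x := by exact_mod_cast hqq
        have hsq : Real.sqrt x * Real.sqrt x = x := Real.mul_self_sqrt hxpos.le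
        have hsq0 : 0 < Real.sqrt x := Real.sqrt_pos.2 hxpos
        push Not at h4
        have h7 : (4 * Real.sqrt x) * (4 * Real.sqrt x) ≤ (q : ℝ) * q := by gcongr
        nlinarith
      rw [h5]
      simp only [Finset.card_empty, Nat.cast_zero]
      positivity
  calc ((Bad x e).card : ℝ)
      ≤ (((PR u v).biUnion fun q => ((Icc 1 x).filter fun n : ℕ =>
          ∃ r ∈ Cq x q, 10 * n + 1 = q * r)).card : ℕ) := by exact_mod_cast Finset.card_le_card hcov
    _ ≤ ((∑ q ∈ PR u v, ((Icc 1 x).filter fun n : ℕ => ∃ r ∈ Cq x q, 10 * n + 1 = q * r).card : ℕ) : ℝ) := by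
        exact_mod_cast Finset.card_biUnion_le
    _ = ∑ q ∈ PR u v, ((((Icc 1 x).filter fun n : ℕ => ∃ r ∈ Cq x q, 10 * n + 1 = q * r).card : ℕ) : ℝ) := by
        push_cast
        rfl
    _ ≤ ∑ q ∈ PR u v, C * (x / Real.log x ^ 2) * (1 / (q : ℝ)) := Finset.sum_le_sum hone
    _ = C * (x / Real.log x ^ 2) * ∑ q ∈ PR u v, 1 / (q : ℝ) := by rw [Finset.mul_sum]
    _ ≤ C * (x / Real.log x ^ 2) * (8 * e) := by gcongr
    _ = 8 * C * e * (x / Real.log x ^ 2) := by ring

end Pool.Agent.Lib.H75F
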