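import Pool.Agent.Lib.H59W.D11
import Pool.Agent.Lib.H75F.F2
import Pool.Agent.Lib.H75F.F3

/-!
# H75F (MP_57a816_nt), file F4: assembly
-/

namespace Pool.Agent.Lib.H75F

open Finset Polynomial
open Pool.Agent.Lib.H59W (F2 Chn AP PP2 Gcl Dat gd cnt lower_D)
open Pool.Agent.Lib.H33B (NoFix)

/-- The quotient `(p+1)/p*` is `1` or a prime between `p^(1/11)` and `p^(1/2 - e)`. -/
def Good (e : ℝ) (p : ℕ) : Prop :=
  p.Prime ∧ (p : ℝ) ^ (1 / 2 + e) ≤ rk p ∧ ∃ q : ℕ, rk p * q = p + 1 ∧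
    (q = 1 ∨ q.Prime ∧ (p : ℝ) ^ (1 / 11 : ℝ) < q ∧ (q : ℝ) ≤ (p : ℝ) ^ (1 / 2 - e))

theorem eval0 (n : ℕ) : (F2 40 10 3 1 0).eval (n : ℤ) = ((40 * n + 3 : ℕ) : ℤ) := by
  simp [F2]

theorem eval1 (n : ℕ) : (F2 40 10 3 1 1).eval (n : ℤ) = ((10 * n + 1 : ℕ) : ℤ) := by
  simp [F2]

theorem noFix : NoFix (F2 40 10 3 1) := by
  intro p hp
  rw [Fin.prod_univ_two]
  by_cases h3 : p = 3
  · refine ⟨1, ?_⟩
    subst h3
    simp [F2]
  · refine ⟨0, ?_⟩
    simp [F2]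
    intro h
    have h1 : p ∣ 3 := by exact_mod_cast h
    exact h3 ((Nat.prime_dvd_prime_iff_eq hp (by norm_num)).1 h1)

theorem primorial_40 : primorial 40 = 7420738134810 := by
  unfold primorial
  decide +kernel

theorem dat : Dat 40 10 3 1 40 where
  a0 := by norm_num
  a0' := by norm_num
  ab := by rw [Int.isCoprime_iff_gcd_eq_one]; norm_num
  ab' := by rw [Int.isCoprime_iff_gcd_eq_one]; norm_num
  aw := by norm_num
  aw' := by norm_num
  w3 := by norm_num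
  det := by norm_num
  detw := by norm_num

theorem gcl : Gcl 40 10 3 1 40 4 := by
  unfold Gcl
  rw [primorial_40, Int.isCoprime_iff_gcd_eq_one, Int.isCoprime_iff_gcd_eq_one]
  constructor <;> norm_num

theorem cnt_le {A B : ℕ → Prop} (h : ∀ n, A n → B n) (x : ℕ) : cnt A x ≤ cnt B x := by
  classical
  unfold cnt
  refine Finset.card_le_card fun n hn => ?_
  simp only [Finset.mem_filter] at hn ⊢
  exact ⟨hn.1, h n hn.2⟩

/-- Chen's theorem for `40 n + 3` and `10 n + 1`. -/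
theorem chen : ∃ c : ℝ, 0 < c ∧ ∃ x0 : ℕ, ∀ x : ℕ, x0 ≤ x →
    c * (x / Real.log x ^ 2) ≤ (cnt (Chn (F2 40 10 3 1) (1 / 10) x) x : ℝ) := by
  classical
  obtain ⟨c, hc, h⟩ := lower_D 40 10 3 1 noFix
  obtain ⟨x0, hx0⟩ := h 40 dat
  refine ⟨c / primorial 40, by rw [primorial_40]; positivity, x0, fun x hx => ?_⟩
  have h1 := hx0 x hx 4 gcl
  have hP : (0 : ℝ) < (primorial 40 : ℕ) := by rw [primorial_40]; norm_num
  have h2 : ((gd (∏ i, F2 40 10 3 1 i) (primorial 40)).card : ℝ) ≤ (primorial 40 : ℕ) := by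
    have : (gd (∏ i, F2 40 10 3 1 i) (primorial 40)).card ≤ (range (primorial 40)).card :=
      Finset.card_le_card (Finset.filter_subset _ _)
    rw [Finset.card_range] at this
    exact_mod_cast this
  have h3 : (cnt (fun n => n ≡ 4 [MOD primorial 40] ∧ Chn (F2 40 10 3 1) (1 / 10) x n) x : ℝ) ≤
      cnt (Chn (F2 40 10 3 1) (1 / 10) x) x := by
    have := cnt_le (A := fun n => n ≡ 4 [MOD primorial 40] ∧ Chn (F2 40 10 3 1) (1 / 10) x n)
      (B := Chn (F2 40 10 3 1) (1 / 10) x) (fun n h => h.2) x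
    exact_mod_cast this
  rw [div_mul_eq_mul_div, div_le_iff₀ hP]
  calc c * (x / Real.log x ^ 2) ≤ _ := h1
    _ ≤ (primorial 40 : ℕ) * (cnt (Chn (F2 40 10 3 1) (1 / 10) x) x : ℝ) := by gcongr
    _ = _ := mul_comm _ _

/-- What happens for one `n`. -/
theorem one_n {x n : ℕ} {e : ℝ} (he0 : 0 < e) (he1 : e ≤ 1 / 8) (hn1 : 1 ≤ n) (hnx : n ≤ x)
    (hx1 : (16 : ℝ) ≤ (x : ℝ) ^ (e / 2)) (hx2 : (43 : ℝ) < (x : ℝ) ^ (1 / 10 : ℝ))
    (hC : Chn (F2 40 10 3 1) (1 / 10) x n)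
    (hB : ¬ ∃ q r : ℕ, q.Prime ∧ r.Prime ∧ 10 * n + 1 = q * r ∧ q ≤ r ∧ (x : ℝ) ^ (1 / 2 - e) < q)
    (hS : ¬ rk (40 * n + 3) ≤ ⌊(x : ℝ) ^ (1 / 2 - e / 2)⌋₊) (hl : (x : ℝ) ^ (1 - e) < n) :
    Good (e / 2) (40 * n + 3) := by
  have hx0 : (1 : ℝ) < x := by
    by_contra h
    push Not at h
    have hxn : (0 : ℝ) ≤ x := Nat.cast_nonneg _
    have : (x : ℝ) ^ (e / 2) ≤ 1 := Real.rpow_le_one hxn h (by positivity)
    linarith
  have hxpos : (0 : ℝ) < x := by linarith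
  obtain ⟨⟨p, hp, hpe⟩, ⟨k, hk, hke⟩, hAP⟩ := hC
  have hpn : p = 40 * n + 3 := by
    rw [eval0] at hpe
    exact_mod_cast hpe.symm
  have hkn : k = 10 * n + 1 := by
    rw [eval1] at hke
    exact_mod_cast hke.symm
  have hbig : ∀ r : ℕ, r.Prime → r ∣ k → (x : ℝ) ^ (1 / 10 : ℝ) < r := by
    intro r hr hrk
    have h1 := hAP 1 r hr (by
      rw [eval1, ← hkn]
      exact_mod_cast hrk)
    exact h1
  rw [← hpn] at hS ⊢
  have hpk : p + 1 = 4 * k := by omega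
  obtain ⟨d, hd1, hd2, hd3⟩ := rk_form hp (by omega) hpk (by omega) (by omega)
  have hn0 : (1 : ℝ) ≤ n := by exact_mod_cast hn1
  have hppos : (1 : ℝ) < p := by
    have : 1 < p := hp.one_lt
    exact_mod_cast this
  have hpx : (x : ℝ) ^ (1 - e) ≤ p := by
    have : (n : ℝ) ≤ p := by exact_mod_cast (by omega : n ≤ p)
    linarith
  have hpx2 : (p : ℝ) ≤ 43 * x := by
    have : p ≤ 43 * x := by omega
    exact_mod_cast this
  -- comparison of the powers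
  have hpow : (x : ℝ) ^ (1 / 2 - e) ≤ (p : ℝ) ^ (1 / 2 - e / 2) := by
    have h1 : ((x : ℝ) ^ (1 - e)) ^ (1 / 2 - e / 2) ≤ (p : ℝ) ^ (1 / 2 - e / 2) :=
      Real.rpow_le_rpow (by positivity) hpx (by linarith)
    refine le_trans ?_ h1
    rw [← Real.rpow_mul hxpos.le]
    apply Real.rpow_le_rpow_of_exponent_le hx0.le
    nlinarith
  have hpow2 : (p : ℝ) ^ (1 / 11 : ℝ) < (x : ℝ) ^ (1 / 10 : ℝ) := by
    have h1 : (p : ℝ) ^ (1 / 11 : ℝ) ≤ (43 * x) ^ (1 / 11 : ℝ) :=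
      Real.rpow_le_rpow (by linarith) hpx2 (by norm_num)
    have h2 : (43 * (x : ℝ)) ^ (1 / 11 : ℝ) < (x : ℝ) ^ (1 / 10 : ℝ) := by
      have h3 : 43 * (x : ℝ) < (x : ℝ) ^ (11 / 10 : ℝ) := by
        have h5 : (x : ℝ) ^ (11 / 10 : ℝ) = (x : ℝ) ^ (1 / 10 : ℝ) * x := by
          rw [show (11 / 10 : ℝ) = 1 / 10 + 1 by norm_num, Real.rpow_add hxpos, Real.rpow_one]
        rw [h5]
        exact mul_lt_mul_of_pos_right hx2 hxpos
      have h4 : ((x : ℝ) ^ (11 / 10 : ℝ)) ^ (1 / 11 : ℝ) = (x : ℝ) ^ (1 / 10 : ℝ) := by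
        rw [← Real.rpow_mul hxpos.le]
        norm_num
      rw [← h4]
      exact Real.rpow_lt_rpow (by positivity) h3 (by norm_num)
    exact h1.trans_lt h2
  -- the rank is large
  have hrk1 : ∀ q : ℕ, rk p * q = p + 1 → (q : ℝ) ≤ (p : ℝ) ^ (1 / 2 - e / 2) → 
      (p : ℝ) ^ (1 / 2 + e / 2) ≤ rk p := by
    intro q hq hqp
    have h1 : (p : ℝ) < rk p * q := by
      have : ((rk p * q : ℕ) : ℝ) = p + 1 := by exact_mod_cast hq
      push_cast at this
      linarith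
    have h2 : (p : ℝ) ^ (1 / 2 + e / 2) * (p : ℝ) ^ (1 / 2 - e / 2) = p := by
      rw [← Real.rpow_add (by linarith)]
      norm_num
    have h3 : (0 : ℝ) < (p : ℝ) ^ (1 / 2 - e / 2) := Real.rpow_pos_of_pos (by linarith) _
    have h4 : (rk p : ℝ) * q ≤ rk p * (p : ℝ) ^ (1 / 2 - e / 2) := by gcongr
    nlinarith
  have hone : (1 : ℝ) ≤ (p : ℝ) ^ (1 / 2 - e / 2) := Real.one_le_rpow hppos.le (by linarith)
  rcases hk with hk | ⟨r0, s0, hr0, hs0, hk0⟩
  · have h1 : d = k := ((Nat.dvd_prime hk).1 hd1).resolve_left hd2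
    have h2 : rk p * 1 = p + 1 := by rw [mul_one, hd3, h1, hpk]
    exact ⟨hp, hrk1 1 h2 (by exact_mod_cast hone), 1, h2, Or.inl rfl⟩
  · obtain ⟨q, r, hq, hr, hqr, hle⟩ : ∃ q r : ℕ, q.Prime ∧ r.Prime ∧ k = q * r ∧ q ≤ r := by
      rcases le_total r0 s0 with h | h
      · exact ⟨r0, s0, hr0, hs0, hk0, h⟩
      · exact ⟨s0, r0, hs0, hr0, by rw [hk0, mul_comm], h⟩
    have hqx : (q : ℝ) ≤ (x : ℝ) ^ (1 / 2 - e) := by
      by_contra h
      push Not at h
      exact hB ⟨q, r, hq, hr, by rw [← hkn, hqr], hle, h⟩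
    have hnq : d ≠ q := by
      intro h
      apply hS
      apply Nat.le_floor
      rw [hd3, h]
      push_cast
      have h1 : (x : ℝ) ^ (1 / 2 - e / 2) = (x : ℝ) ^ (1 / 2 - e) * (x : ℝ) ^ (e / 2) := by
        rw [← Real.rpow_add hxpos]
        ring_nf
      rw [h1]
      have h2 : (0 : ℝ) < (x : ℝ) ^ (1 / 2 - e) := Real.rpow_pos_of_pos hxpos _
      nlinarith
    obtain ⟨d1, d2, h1, h2, h3⟩ := (Nat.dvd_mul).1 (hqr ▸ hd1)
    rcases (Nat.dvd_prime hr).1 h2 with h4 | h4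
    · exfalso
      rw [h4, mul_one] at h3
      rcases (Nat.dvd_prime hq).1 h1 with h5 | h5
      · exact hd2 (by rw [← h3, h5])
      · exact hnq (by rw [← h3, h5])
    · rcases (Nat.dvd_prime hq).1 h1 with h5 | h5
      · -- the index is q
        have h6 : d = r := by rw [← h3, h5, h4, one_mul]
        have h7 : rk p * q = p + 1 := by rw [hd3, h6, hpk, hqr]; ring
        have h8 : (q : ℝ) ≤ (p : ℝ) ^ (1 / 2 - e / 2) := hqx.trans hpow
        refine ⟨hp, hrk1 q h7 h8, q, h7, Or.inr ⟨hq, ?_, h8⟩⟩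
        exact hpow2.trans (hbig q hq ⟨r, hqr⟩)
      · have h6 : d = k := by rw [← h3, h5, h4, hqr]
        have h7 : rk p * 1 = p + 1 := by rw [mul_one, hd3, h6, hpk]
        exact ⟨hp, hrk1 1 h7 (by exact_mod_cast hone), 1, h7, Or.inl rfl⟩

open Classical in
/-- The set of the good `n`. -/
noncomputable def GN (e : ℝ) (x : ℕ) : Finset ℕ := (Icc 1 x).filter (fun n : ℕ => Good e (40 * n + 3))

theorem many_n : ∃ c : ℝ, 0 < c ∧ ∃ e : ℝ, 0 < e ∧ ∃ x0 : ℕ, ∀ x : ℕ, x0 ≤ x →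
    c * (x / Real.log x ^ 2) ≤ ((GN e x).card : ℝ) := by
  classical
  obtain ⟨c, hc, x1, h1⟩ := chen
  obtain ⟨C, hC, h4⟩ := s4
  obtain ⟨e, he⟩ : ∃ e : ℝ, e = min (1 / 8) (c / (4 * C)) := ⟨_, rfl⟩
  have he0 : 0 < e := by rw [he]; positivity
  have he1 : e ≤ 1 / 8 := by rw [he]; exact min_le_left _ _
  have heC : C * e ≤ c / 4 := by
    have : e ≤ c / (4 * C) := by rw [he]; exact min_le_right _ _
    rw [le_div_iff₀ (by positivity)] at this
    linarith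
  obtain ⟨x2, h2⟩ := h4 e he0 he1
  -- eventually conditions
  have ev1 : ∀ᶠ x : ℕ in Filter.atTop, (16 : ℝ) ≤ (x : ℝ) ^ (e / 2) :=
    ((tendsto_rpow_atTop (by positivity)).comp tendsto_natCast_atTop_atTop).eventually_ge_atTop 16
  have ev2 : ∀ᶠ x : ℕ in Filter.atTop, (43 : ℝ) < (x : ℝ) ^ (1 / 10 : ℝ) :=
    ((tendsto_rpow_atTop (by norm_num)).comp tendsto_natCast_atTop_atTop).eventually_gt_atTop 43
  have ev3 : ∀ᶠ x : ℕ in Filter.atTop, Real.log x ^ 2 ≤ c / 8 * (x : ℝ) ^ e := by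
    have h5 := (isLittleO_log_rpow_rpow_atTop (2 : ℝ) he0).def (by positivity : 0 < c / 8)
    have h6 := (tendsto_natCast_atTop_atTop (R := ℝ)).eventually h5
    filter_upwards [h6, ev_log 0] with x hx hl
    rw [Real.norm_of_nonneg (by positivity), Real.norm_of_nonneg (by positivity)] at hx
    have : Real.log x ^ (2 : ℝ) = Real.log x ^ 2 := by
      rw [← Real.rpow_natCast]; norm_num
    rw [← this]
    exact hx
  obtain ⟨x3, h3⟩ := Filter.eventually_atTop.1 (ev1.and (ev2.and (ev3.and (ev_log 1))))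
  refine ⟨c / 4, by positivity, e / 2, by positivity, max x1 (max x2 (max x3 2)), fun x hx => ?_⟩
  have hxx1 : x1 ≤ x := le_trans (le_max_left _ _) hx
  have hxx2 : x2 ≤ x := le_trans (le_trans (le_max_left _ _) (le_max_right _ _)) hx
  have hxx3 : x3 ≤ x := le_trans (le_trans (le_trans (le_max_left _ _) (le_max_right _ _)) (le_max_right _ _)) hx
  have hxx4 : 2 ≤ x := le_trans (le_trans (le_trans (le_max_right _ _) (le_max_right _ _)) (le_max_right _ _)) hx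
  obtain ⟨g1, g2, g3, g4⟩ := h3 x hxx3
  have hx1 : (1 : ℝ) ≤ x := by exact_mod_cast (by omega : 1 ≤ x)
  have hxpos : (0 : ℝ) < x := by linarith
  have hlog : 0 < Real.log x ^ 2 := by positivity
  obtain ⟨y, hy⟩ : ∃ y : ℕ, y = ⌊(x : ℝ) ^ (1 / 2 - e / 2)⌋₊ := ⟨_, rfl⟩
  obtain ⟨t, ht⟩ : ∃ t : ℕ, t = ⌊(x : ℝ) ^ (1 - e)⌋₊ := ⟨_, rfl⟩
  set L := (Icc 1 x).filter (Chn (F2 40 10 3 1) (1 / 10) x) with hL
  set R := (Icc 1 x).filter (fun n : ℕ => (40 * n + 3).Prime ∧ rk (40 * n + 3) ≤ y) with hR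
  have hsub : L ⊆ GN (e / 2) x ∪ (Bad x e ∪ (R ∪ Icc 1 t)) := by
    intro n hn
    obtain ⟨hn1, hn2⟩ := Finset.mem_filter.1 hn
    have hn3 := Finset.mem_Icc.1 hn1
    by_cases hB : n ∈ Bad x e
    · exact Finset.mem_union_right _ (Finset.mem_union_left _ hB)
    by_cases hRn : n ∈ R
    · exact Finset.mem_union_right _ (Finset.mem_union_right _ (Finset.mem_union_left _ hRn))
    by_cases hT : n ∈ Icc 1 t
    · exact Finset.mem_union_right _ (Finset.mem_union_right _ (Finset.mem_union_right _ hT))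
    refine Finset.mem_union_left _ (Finset.mem_filter.2 ⟨hn1, ?_⟩)
    have hpr : (40 * n + 3).Prime := by
      obtain ⟨⟨p, hp, hpe⟩, _, _⟩ := hn2
      rw [eval0] at hpe
      have : p = 40 * n + 3 := by exact_mod_cast hpe.symm
      rw [← this]
      exact hp
    refine one_n he0 he1 hn3.1 hn3.2 g1 g2 hn2 ?_ ?_ ?_
    · rintro ⟨q, r, hq, hr, hqr, hle, hlt⟩
      exact hB (Finset.mem_filter.2 ⟨hn1, hpr, q, r, hq, hr, hqr, hle, hlt⟩)
    · intro h
      exact hRn (Finset.mem_filter.2 ⟨hn1, hpr, by rw [hy]; exact h⟩)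
    · by_contra h
      push Not at h
      apply hT
      rw [Finset.mem_Icc]
      refine ⟨hn3.1, ?_⟩
      rw [ht]
      exact Nat.le_floor h
  have hcard : (L.card : ℝ) ≤ (GN (e / 2) x).card + ((Bad x e).card + (R.card + t)) := by
    have h5 : L.card ≤ (GN (e / 2) x).card + ((Bad x e).card + (R.card + t)) := by
      refine (Finset.card_le_card hsub).trans ?_
      refine (Finset.card_union_le _ _).trans ?_
      refine Nat.add_le_add_left ?_ _
      refine (Finset.card_union_le _ _).trans ?_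
      refine Nat.add_le_add_left ?_ _
      refine (Finset.card_union_le _ _).trans ?_
      refine Nat.add_le_add_left ?_ _
      rw [Nat.card_Icc]
      omega
    exact_mod_cast h5
  have hRc : (R.card : ℝ) ≤ (x : ℝ) ^ (1 - e) := by
    have h5 : R.card ≤ y ^ 2 := small_rank x y
    have h6 : (y : ℝ) ≤ (x : ℝ) ^ (1 / 2 - e / 2) := by
      rw [hy]; exact Nat.floor_le (by positivity)
    calc (R.card : ℝ) ≤ (y : ℝ) ^ 2 := by exact_mod_cast h5
      _ ≤ ((x : ℝ) ^ (1 / 2 - e / 2)) ^ 2 := by gcongr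
      _ = (x : ℝ) ^ (1 - e) := by
          rw [← Real.rpow_natCast, ← Real.rpow_mul hxpos.le]
          congr 1
          push_cast
          ring
  have htc : (t : ℝ) ≤ (x : ℝ) ^ (1 - e) := by
    rw [ht]; exact Nat.floor_le (by positivity)
  have hsm : (x : ℝ) ^ (1 - e) ≤ c / 8 * (x / Real.log x ^ 2) := by
    have h5 : (x : ℝ) ^ (1 - e) * (x : ℝ) ^ e = x := by
      rw [← Real.rpow_add hxpos]
      norm_num
    rw [← mul_div_assoc, le_div_iff₀ hlog]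
    calc (x : ℝ) ^ (1 - e) * Real.log x ^ 2 ≤ (x : ℝ) ^ (1 - e) * (c / 8 * (x : ℝ) ^ e) := by gcongr
      _ = c / 8 * ((x : ℝ) ^ (1 - e) * (x : ℝ) ^ e) := by ring
      _ = c / 8 * x := by rw [h5]
  have hLc : c * (x / Real.log x ^ 2) ≤ L.card := h1 x hxx1
  have hBc := h2 x hxx2
  have hX : 0 < (x : ℝ) / Real.log x ^ 2 := by positivity
  have hBc2 : C * e * (x / Real.log x ^ 2) ≤ c / 4 * (x / Real.log x ^ 2) := by gcongr
  nlinarith

open Classical in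
/-- **Main theorem.** -/
theorem main : ∃ c : ℝ, 0 < c ∧ ∃ e : ℝ, 0 < e ∧ ∃ X0 : ℕ, ∀ X : ℕ, X0 ≤ X →
    c * (X / Real.log X ^ 2) ≤ (((Icc 1 X).filter (Good e)).card : ℝ) := by
  obtain ⟨c, hc, e, he, x0, h⟩ := many_n
  refine ⟨c / 100, by positivity, e, he, 50 * (x0 + 50), fun X hX => ?_⟩
  obtain ⟨x, hx⟩ : ∃ x : ℕ, x = (X - 3) / 40 := ⟨_, rfl⟩
  have hx0 : x0 ≤ x := by omega
  have hx1 : 40 ≤ x := by omega
  have hxX : 40 * x + 3 ≤ X := by omega
  have hXx : X ≤ 50 * x := by omega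
  have h1 := h x hx0
  have h2 : (GN e x).card ≤ ((Icc 1 X).filter (Good e)).card := by
    refine Finset.card_le_card_of_injOn (fun n => 40 * n + 3) ?_ ?_
    · intro n hn
      obtain ⟨h3, h4⟩ := Finset.mem_filter.1 (Finset.mem_coe.1 hn)
      rw [Finset.mem_Icc] at h3
      refine Finset.mem_coe.2 (Finset.mem_filter.2 ⟨?_, h4⟩)
      rw [Finset.mem_Icc]
      constructor
      · show 1 ≤ 40 * n + 3
        omega
      · show 40 * n + 3 ≤ X
        omega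
    · intro a _ b _ hab
      simp only at hab
      omega
  have hxr : (1 : ℝ) < x := by exact_mod_cast (by omega : 1 < x)
  have hxX' : (x : ℝ) ≤ X := by exact_mod_cast (by omega : x ≤ X)
  have hXx' : (X : ℝ) ≤ 50 * x := by exact_mod_cast hXx
  have hlx : 0 < Real.log x := Real.log_pos hxr
  have hlX : Real.log x ≤ Real.log X := Real.log_le_log (by linarith) hxX'
  have h3 : (X : ℝ) / Real.log X ^ 2 ≤ 50 * (x / Real.log x ^ 2) := by
    calc (X : ℝ) / Real.log X ^ 2 ≤ (50 * x) / Real.log x ^ 2 := by gcongr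
      _ = _ := by ring
  calc c / 100 * (X / Real.log X ^ 2) ≤ c / 100 * (50 * (x / Real.log x ^ 2)) := by gcongr
    _ ≤ c * (x / Real.log x ^ 2) := by
        have : 0 ≤ (x : ℝ) / Real.log x ^ 2 := by positivity
        nlinarith
    _ ≤ (GN e x).card := h1
    _ ≤ _ := by exact_mod_cast h2

end Pool.Agent.Lib.H75F
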